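import Pool.Agent.V8H11.DE.Loc

/-!
# The needed nodes form a pebbling
-/

set_option autoImplicit false

namespace Pool.Agent.V8H11.DE

variable {α : Type} {k : ℕ}

/-- the node `v` is needed at time `t`: its value is named before it is read again -/
def Need (G : Dag α) (f : Var α k → Fin k) (i : ℕ → Instr α k) (t : ℕ) (v : α) : Prop :=
  ∃ T, t ≤ T ∧ Names G (i T) v (value G f v) ∧ ∀ u, t ≤ u → u < T → i u ≠ .query (cell G f v)

theorem need_step {G : Dag α} {f : Var α k → Fin k} {i : ℕ → Instr α k} {t : ℕ} {v : α}
    (h1 : Need G f i (t + 1) v) (h0 : ¬ Need G f i t v) : i t = .query (cell G f v) := by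
  by_contra hc
  obtain ⟨T, hT, hn, hu⟩ := h1
  refine h0 ⟨T, by omega, hn, fun u hu1 hu2 => ?_⟩
  rcases Nat.eq_or_lt_of_le hu1 with rfl | h3
  · exact hc
  · exact hu u h3 hu2

open Classical in
/-- the needed nodes -/
noncomputable def needSet (G : Dag α) (f : Var α k → Fin k) (i : ℕ → Instr α k) (t : ℕ) :
    Finset α :=
  G.nodes.filter fun v => Need G f i t v

open Classical in
theorem mem_needSet {G : Dag α} {f : Var α k → Fin k} {i : ℕ → Instr α k} {t : ℕ} {v : α} :
    v ∈ needSet G f i t ↔ v ∈ G.nodes ∧ Need G f i t v := by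
  unfold needSet
  rw [Finset.mem_filter]

theorem pebbling {G : Dag α} {f : Var α k → Fin k} {i : ℕ → Instr α k} {T : ℕ}
    (hT : Names G (i T) G.root (value G f G.root)) (h0 : ∀ v ∈ G.nodes, ¬ Need G f i 0 v) :
    Pebbling G (fun t => needSet G f i t) T := by
  refine ⟨?_, ?_, ?_⟩
  · rw [Finset.eq_empty_iff_forall_notMem]
    intro v hv
    rw [mem_needSet] at hv
    exact h0 v hv.1 hv.2
  · show G.root ∈ needSet G f i T
    rw [mem_needSet]
    exact ⟨G.root_mem, T, le_refl _, hT, fun u h1 h2 => by omega⟩
  · intro t _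
    by_cases hsub : needSet G f i (t + 1) ⊆ needSet G f i t
    · exact Or.inl hsub
    · right
      rw [Finset.not_subset] at hsub
      obtain ⟨w, hw1, hw0⟩ := hsub
      have hw : i t = .query (cell G f w) := by
        rw [mem_needSet] at hw1 hw0
        exact need_step hw1.2 fun h => hw0 ⟨hw1.1, h⟩
      refine ⟨w, ?_, ?_⟩
      · intro v hv
        by_contra hc
        push Not at hc
        have hv0 := hc.1
        rw [mem_needSet] at hv hv0
        have hv2 : i t = .query (cell G f v) := need_step hv.2 fun h => hv0 ⟨hv.1, h⟩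
        rw [hw] at hv2
        have h3 := congrArg (fun j : Instr α k => match j with
          | .query x => some (node x)
          | .output _ => none) hv2
        simp only [node_cell, Option.some.injEq] at h3
        exact hc.2 h3.symm
      · intro l r hlr
        rw [mem_needSet] at hw1
        have h4 := names_children (f := f) hlr
        rw [← hw] at h4
        have h5 := G.ch_mem w l r hw1.1 hlr
        show l ∈ needSet G f i t ∧ r ∈ needSet G f i t
        rw [mem_needSet, mem_needSet]
        exact ⟨⟨h5.1, t, le_refl _, h4.1, fun u h1 h2 => by omega⟩,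
          ⟨h5.2, t, le_refl _, h4.2, fun u h1 h2 => by omega⟩⟩

end Pool.Agent.V8H11.DE
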