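import Mathlib

/-!
# Evaluation of dags and deterministic programs
-/

set_option autoImplicit false

namespace Pool.Agent.V8H11.DE

/-- A finite directed acyclic graph: a node `v` with `ch v = none` is a leaf, a node `v` with
`ch v = some (l, r)` is an inner node with the two children `l ≠ r`; `nodes` is the set of nodes. -/
structure Dag (α : Type) where
  /-- the children -/
  ch : α → Option (α × α)
  /-- a rank function -/
  rk : α → ℕ
  /-- the nodes -/
  nodes : Finset α
  /-- the node whose value is asked for -/
  root : α
  rk_lt : ∀ v l r, ch v = some (l, r) → rk l < rk v ∧ rk r < rk v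
  ne : ∀ v l r, ch v = some (l, r) → l ≠ r
  root_mem : root ∈ nodes
  ch_mem : ∀ v l r, v ∈ nodes → ch v = some (l, r) → l ∈ nodes ∧ r ∈ nodes

/-- The variables: the value of the leaf `v`, and the entry `(a, b)` of the table of the inner node
`v`. -/
inductive Var (α : Type) (k : ℕ) : Type
  | leaf (v : α)
  | entry (v : α) (a b : Fin k)

noncomputable instance instDecidableEqVar {α : Type} {k : ℕ} : DecidableEq (Var α k) :=
  Classical.decEq _

/-- The variables which belong to the dag. -/
def Valid {α : Type} (G : Dag α) {k : ℕ} : Var α k → Prop
  | .leaf v => v ∈ G.nodes ∧ G.ch v = none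
  | .entry v _ _ => v ∈ G.nodes ∧ G.ch v ≠ none

/-- The inputs: a value in `Fin k` for every variable of the dag. -/
abbrev Inp {α : Type} (G : Dag α) (k : ℕ) : Type := {x : Var α k // Valid G x} → Fin k

open Classical in
/-- Reading a variable (what does not belong to the dag reads as `0`). -/
noncomputable def ext {α : Type} {G : Dag α} {k : ℕ} [NeZero k] (I : Inp G k) (x : Var α k) :
    Fin k :=
  if hx : Valid G x then I ⟨x, hx⟩ else 0

/-- The value of a node. -/
def value {α : Type} {k : ℕ} (G : Dag α) (f : Var α k → Fin k) (v : α) : Fin k :=
  match hv : G.ch v with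
  | none => f (.leaf v)
  | some (l, r) => f (.entry v (value G f l) (value G f r))
termination_by G.rk v
decreasing_by
  · exact (G.rk_lt v l r hv).1
  · exact (G.rk_lt v l r hv).2

/-- The variable which holds the value of the node `v`. -/
def cell {α : Type} {k : ℕ} (G : Dag α) (f : Var α k → Fin k) (v : α) : Var α k :=
  match G.ch v with
  | none => .leaf v
  | some (l, r) => .entry v (value G f l) (value G f r)

/-- What a state of a program does: it queries a variable, or it outputs a value. -/
inductive Instr (α : Type) (k : ℕ) : Type
  | query (x : Var α k)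
  | output (a : Fin k)

/-- A deterministic program with the set `S` of states (a `k`-way branching program, or any
non-uniform machine, whose configurations are the states): after a query the next state depends on
the state and on the value read. -/
structure Prog (α : Type) (k : ℕ) (S : Type) where
  /-- the initial state -/
  start : S
  /-- the instruction of a state -/
  instr : S → Instr α k
  /-- the next state after a query with the given answer -/
  next : S → Fin k → S

/-- One step (a program stays where it outputs). -/
def step {α : Type} {k : ℕ} {S : Type} (B : Prog α k S) (f : Var α k → Fin k) (s : S) : S :=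
  match B.instr s with
  | .query x => B.next s (f x)
  | .output _ => s

/-- The state after `t` steps from the state `s`. -/
def run {α : Type} {k : ℕ} {S : Type} (B : Prog α k S) (f : Var α k → Fin k) (s : S) (t : ℕ) : S :=
  (step B f)^[t] s

/-- The instruction of the program at time `t` of its computation on the input `f`. -/
def ins {α : Type} {k : ℕ} {S : Type} (B : Prog α k S) (f : Var α k → Fin k) (t : ℕ) :
    Instr α k :=
  B.instr (run B f B.start t)

/-- A query of the entry `(a, b)` of the table of `v` names the value `a` for the left child and the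
value `b` for the right child of `v`; an output names a value for the root. -/
def Names {α : Type} {k : ℕ} (G : Dag α) : Instr α k → α → Fin k → Prop
  | .query (.entry v a b), u, c =>
      ∃ l r, G.ch v = some (l, r) ∧ ((u = l ∧ c = a) ∨ (u = r ∧ c = b))
  | .query (.leaf _), _, _ => False
  | .output a, u, c => u = G.root ∧ c = a

/-- The pairs `(v, c)` of a node `v` and a wrong value `c` for it such that `c` is named for `v` at
a time before which the value of `v` has not been read. -/
def blind {α : Type} {k : ℕ} {S : Type} (B : Prog α k S) (G : Dag α) (f : Var α k → Fin k) :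
    Set (α × Fin k) :=
  {y | y.1 ∈ G.nodes ∧ y.2 ≠ value G f y.1 ∧
    ∃ t, Names G (ins B f t) y.1 y.2 ∧ ∀ u < t, ins B f u ≠ .query (cell G f y.1)}

/-- At most `q` wrong values of a node `v` are named between a time `r` at which the value of `v` is
read or its right value is named and the next time `T` at which its right value is named, if the value
of `v` is not read in between. -/
def Tame {α : Type} {k : ℕ} {S : Type} (B : Prog α k S) (G : Dag α) (q : ℕ)
    (f : Var α k → Fin k) : Prop :=
  ∀ v ∈ G.nodes, ∀ r T, r < T →
    (ins B f r = .query (cell G f v) ∨ Names G (ins B f r) v (value G f v)) →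
    Names G (ins B f T) v (value G f v) →
    (∀ u, r < u → u < T → ins B f u ≠ .query (cell G f v) ∧
      ¬ Names G (ins B f u) v (value G f v)) →
    {c | ∃ u, r < u ∧ u < T ∧ Names G (ins B f u) v c}.ncard ≤ q

theorem finite_valid {α : Type} (G : Dag α) (k : ℕ) : Finite {x : Var α k // Valid G x} := by
  have h1 : {x : Var α k | Valid G x} ⊆
      (Var.leaf '' (G.nodes : Set α)) ∪
        ((fun y : α × Fin k × Fin k => Var.entry y.1 y.2.1 y.2.2) ''
          ((G.nodes : Set α) ×ˢ (Set.univ ×ˢ Set.univ))) := by
    rintro (v | ⟨v, a, b⟩) hx
    · left
      exact ⟨v, hx.1, rfl⟩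
    · right
      exact ⟨(v, a, b), ⟨hx.1, Set.mem_univ _, Set.mem_univ _⟩, rfl⟩
  have h2 : (G.nodes : Set α).Finite := G.nodes.finite_toSet
  exact (((h2.image _).union ((h2.prod (Set.finite_univ.prod Set.finite_univ)).image _)).subset
    h1).to_subtype

noncomputable instance instFintypeValid {α : Type} (G : Dag α) (k : ℕ) :
    Fintype {x : Var α k // Valid G x} :=
  haveI := finite_valid G k
  Fintype.ofFinite _

open Classical in
/-- The inputs on which the program outputs the value of the root, names at most `p` wrong values of
nodes not read before, and is tame with `q`. -/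
noncomputable def good {α : Type} {k : ℕ} [NeZero k] {S : Type} (B : Prog α k S) (G : Dag α)
    (p q : ℕ) : Finset (Inp G k) :=
  Finset.univ.filter fun I =>
    (∃ t, ins B (ext I) t = .output (value G (ext I) G.root)) ∧
      (blind B G (ext I)).ncard ≤ p ∧ Tame B G q (ext I)

open Classical in
/-- The inputs on which the program outputs the value of the root after at most `T` steps. -/
noncomputable def fast {α : Type} {k : ℕ} [NeZero k] {S : Type} (B : Prog α k S) (G : Dag α)
    (T : ℕ) : Finset (Inp G k) :=
  Finset.univ.filter fun I => ∃ t ≤ T, ins B (ext I) t = .output (value G (ext I) G.root)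

/-- A pebbling of the root in `T` moves: in a move pebbles may be removed, and a pebble may be put on
(or moved to) a node `w` whose children carry pebbles. -/
def Pebbling {α : Type} (G : Dag α) (P : ℕ → Finset α) (T : ℕ) : Prop :=
  P 0 = ∅ ∧ G.root ∈ P T ∧ ∀ t < T, P (t + 1) ⊆ P t ∨
    ∃ w, (∀ v ∈ P (t + 1), v ∈ P t ∨ v = w) ∧
      ∀ l r, G.ch w = some (l, r) → l ∈ P t ∧ r ∈ P t

/-- Every pebbling of the root has at some time at least `π` pebbles. -/
def PebblingBound {α : Type} (G : Dag α) (π : ℕ) : Prop :=
  ∀ (P : ℕ → Finset α) (T : ℕ), Pebbling G P T → ∃ t ≤ T, π ≤ (P t).card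

/-- The pyramid with `h` levels: `(r, c)` with `c ≤ r < h` is the node number `c` of the level `r`; its children are `(r + 1, c)` and `(r + 1, c + 1)`, and the `h` nodes of the level
`h - 1` are the leaves. -/
def pyramid (h : ℕ) (hh : 0 < h) : Dag (ℕ × ℕ) where
  ch v := if v.1 + 1 < h then some ((v.1 + 1, v.2), (v.1 + 1, v.2 + 1)) else none
  rk v := h - v.1
  nodes := ((Finset.range h) ×ˢ (Finset.range h)).filter fun v => v.2 ≤ v.1
  root := (0, 0)
  rk_lt := by
    intro v l r hv
    split_ifs at hv with h1
    simp only [Option.some.injEq, Prod.mk.injEq] at hv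
    obtain ⟨rfl, rfl⟩ := hv
    simp only
    omega
  ne := by
    intro v l r hv
    split_ifs at hv with h1
    simp only [Option.some.injEq, Prod.mk.injEq] at hv
    obtain ⟨rfl, rfl⟩ := hv
    simp
  root_mem := by
    simp only [Finset.mem_filter, Finset.mem_product, Finset.mem_range]
    exact ⟨⟨hh, hh⟩, le_refl _⟩
  ch_mem := by
    intro v l r hv hc
    split_ifs at hc with h1
    simp only [Option.some.injEq, Prod.mk.injEq] at hc
    obtain ⟨rfl, rfl⟩ := hc
    simp only [Finset.mem_filter, Finset.mem_product, Finset.mem_range] at hv ⊢
    omega

end Pool.Agent.V8H11.DE
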