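import Pool.Agent.V8H11.DE.Pyr

/-!
# Programs with a time bound
-/

set_option autoImplicit false

namespace Pool.Agent.V8H11.DE

variable {α : Type} {k : ℕ} {S : Type}

theorem ins_stay {B : Prog α k S} {f : Var α k → Fin k} {t : ℕ} {a : Fin k}
    (ht : ins B f t = .output a) {u : ℕ} (hu : t ≤ u) : ins B f u = .output a := by
  have h1 : run B f B.start u = run B f B.start t := by
    induction u, hu using Nat.le_induction with
    | base => rfl
    | succ u hu ih =>
      rw [run_succ, ih]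
      unfold step
      unfold ins at ht
      rw [ht]
  unfold ins
  rw [h1]
  exact ht

theorem ncard_biUnion_le {β : Type} (A : ℕ → Set β) (m : ℕ) (hA : ∀ u, (A u).Finite ∧
    (A u).ncard ≤ m) (T : ℕ) : {z | ∃ u < T, z ∈ A u}.Finite ∧ {z | ∃ u < T, z ∈ A u}.ncard ≤ m * T := by
  induction T with
  | zero =>
    have h1 : {z | ∃ u < 0, z ∈ A u} = (∅ : Set β) := by
      ext z
      simp
    rw [h1]
    exact ⟨Set.finite_empty, by rw [Set.ncard_empty]; omega⟩
  | succ T ih =>
    have h1 : {z | ∃ u < T + 1, z ∈ A u} = {z | ∃ u < T, z ∈ A u} ∪ A T := by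
      ext z
      constructor
      · rintro ⟨u, hu, hz⟩
        rcases Nat.lt_succ_iff_lt_or_eq.mp hu with h2 | h2
        · exact Or.inl ⟨u, h2, hz⟩
        · right; rw [← h2]; exact hz
      · rintro (⟨u, hu, hz⟩ | hz)
        · exact ⟨u, by omega, hz⟩
        · exact ⟨T, by omega, hz⟩
    rw [h1]
    refine ⟨ih.1.union (hA T).1, (Set.ncard_union_le _ _).trans ?_⟩
    have := (hA T).2
    have := ih.2
    rw [Nat.mul_succ]
    omega

theorem fast_sub_good [NeZero k] (B : Prog α k S) (G : Dag α) (T : ℕ) :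
    fast B G T ⊆ good B G (2 * T) T := by
  classical
  intro I hI
  unfold fast at hI
  rw [Finset.mem_filter] at hI
  obtain ⟨-, t, htT, ht⟩ := hI
  unfold good
  rw [Finset.mem_filter]
  refine ⟨Finset.mem_univ _, ⟨t, ht⟩, ?_, ?_⟩
  · have h1 := ncard_biUnion_le (fun u => {z : α × Fin k | Names G (ins B (ext I) u) z.1 z.2}) 2
      (fun u => names_card G _) t
    have h2 : blind B G (ext I) ⊆
        {z | ∃ u < t, z ∈ {z : α × Fin k | Names G (ins B (ext I) u) z.1 z.2}} := by
      rintro ⟨v, c⟩ ⟨hv, hc, u, hn, -⟩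
      refine ⟨u, ?_, hn⟩
      by_contra hle
      simp only at hn hc
      rw [ins_stay ht (by omega)] at hn
      apply hc
      rw [hn.1]
      exact hn.2
    exact (Set.ncard_le_ncard h2 h1.1).trans (h1.2.trans (Nat.mul_le_mul_left _ htT))
  · intro v hv r T1 hr hev hn hno
    have h1 := ncard_biUnion_le (fun u => {c : Fin k | Names G (ins B (ext I) u) v c}) 1
      (fun u => ⟨Set.toFinite _, by
        rw [Set.ncard_le_one (Set.toFinite _)]
        intro c hc d hd
        exact names_unique hc hd⟩) t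
    have h2 : {c | ∃ u, r < u ∧ u < T1 ∧ Names G (ins B (ext I) u) v c} ⊆
        {z | ∃ u < t, z ∈ {c : Fin k | Names G (ins B (ext I) u) v c}} := by
      rintro c ⟨u, hu1, hu2, hc⟩
      refine ⟨u, ?_, hc⟩
      by_contra hle
      have h3 := (hno u hu1 hu2).2
      have hc' := hc
      rw [ins_stay ht (by omega)] at h3 hc'
      apply h3
      rw [hc'.1]
      exact ⟨rfl, rfl⟩
    refine (Set.ncard_le_ncard h2 h1.1).trans (h1.2.trans ?_)
    omega

/-- The lower bound for programs with a time bound. -/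
theorem fast_main [NeZero k] [Fintype S] (B : Prog α k S) {G : Dag α} {T π : ℕ} (hk : 2 ≤ k)
    (hπ : PebblingBound G π) :
    ((fast B G T).card : ℝ) ≤
      (3 * Fintype.card S * (G.nodes.card * (T + 1) / k : ℝ) ^ π + 2 * (T + 1) / (k - 1)) *
        Fintype.card (Inp G k) := by
  have h1 : ((fast B G T).card : ℝ) ≤ (good B G (2 * T) T).card := by
    exact_mod_cast Finset.card_le_card (fast_sub_good B G T)
  refine h1.trans ((main B (p := 2 * T) (q := T) hk hπ).trans ?_)
  refine mul_le_mul_of_nonneg_right ?_ (Nat.cast_nonneg _)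
  have h2 : ((2 * T : ℕ) + 2 : ℝ) = 2 * (T + 1) := by push_cast; ring
  rw [h2]

/-- Unrestricted programs for pyramids with a time bound. -/
theorem pyramid_fast {k : ℕ} [NeZero k] {S : Type} [Fintype S] (B : Prog (ℕ × ℕ) k S) {h : ℕ}
    (hh : 4 ≤ h) {T : ℕ} (hT : h ^ 4 * (T + 1) ≤ k) (hS : Fintype.card S ≤ h ^ h) :
    ((fast B (pyramid h (by omega)) T).card : ℝ) ≤
      6 / (h : ℝ) ^ 4 * Fintype.card (Inp (pyramid h (by omega)) k) := by
  have hh0 : 0 < h := by omega
  have h1 : ((fast B (pyramid h hh0) T).card : ℝ) ≤ (good B (pyramid h hh0) (2 * T) T).card := by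
    exact_mod_cast Finset.card_le_card (fast_sub_good B _ T)
  have h16 : 256 ≤ h ^ 4 := by
    have h1 : 4 ^ 4 ≤ h ^ 4 := Nat.pow_le_pow_left hh 4
    omega
  have hk : 256 ≤ k := by
    have h2 : h ^ 4 ≤ h ^ 4 * (T + 1) := Nat.le_mul_of_pos_right _ (by omega)
    omega
  refine h1.trans ((pyramid_exp B (by omega) (p := 2 * T) (q := T) hT hS).trans ?_)
  refine mul_le_mul_of_nonneg_right ?_ (Nat.cast_nonneg _)
  have hhr : (4 : ℝ) ≤ h := by exact_mod_cast hh
  have hkr : (256 : ℝ) ≤ k := by exact_mod_cast hk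
  have hTr : (h : ℝ) ^ 4 * (T + 1) ≤ k := by exact_mod_cast hT
  have h2 : ((2 * T : ℕ) + 2 : ℝ) / (k - 1) ≤ 3 / (h : ℝ) ^ 4 := by
    rw [div_le_div_iff₀ (by linarith) (by positivity)]
    push_cast
    nlinarith
  have h3 : 3 / (h : ℝ) ^ h ≤ 3 / (h : ℝ) ^ 4 := by
    apply div_le_div_of_nonneg_left (by norm_num) (by positivity)
    exact pow_le_pow_right₀ (by linarith) hh
  calc 3 / (h : ℝ) ^ h + ((2 * T : ℕ) + 2 : ℝ) / (k - 1) ≤ 3 / (h : ℝ) ^ 4 + 3 / (h : ℝ) ^ 4 :=
        add_le_add h3 h2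
    _ = 6 / (h : ℝ) ^ 4 := by ring

end Pool.Agent.V8H11.DE
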