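import Pool.Agent.V8H11.DE.Crit

/-!
# Few inputs share a state with the same needed nodes
-/

set_option autoImplicit false

namespace Pool.Agent.V8H11.DE

variable {α : Type} {k : ℕ} {S : Type}

/-- from the state `s` the right value of `v` is named for the first time at time `T`, before the
value is read, after `m` other values -/
def At (B : Prog α k S) (G : Dag α) (s : S) (f : Var α k → Fin k) (v : α) (m T : ℕ) : Prop :=
  Names G (B.instr (run B f s T)) v (value G f v) ∧
    (∀ u < T, ¬ Names G (B.instr (run B f s u)) v (value G f v) ∧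
      B.instr (run B f s u) ≠ .query (cell G f v)) ∧
    {c | ∃ u < T, Names G (B.instr (run B f s u)) v c}.ncard = m

/-- the class of inputs -/
def Cls (B : Prog α k S) (G : Dag α) (s : S) (V : Finset α) (m : α → ℕ)
    (f : Var α k → Fin k) : Prop :=
  (∀ v ∈ V, ∃ T, At B G s f v (m v) T) ∧
    ∀ v ∈ G.nodes, v ∉ V → ∀ T, Names G (B.instr (run B f s T)) v (value G f v) →
      ∃ r < T, B.instr (run B f s r) = .query (cell G f v)

open Classical in
/-- overwriting the values of the nodes of `V` -/
noncomputable def ovr (G : Dag α) (f : Var α k → Fin k) (V : Finset α) (c : α → Fin k)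
    (x : Var α k) : Fin k :=
  if node x ∈ V ∧ x = cell G f (node x) then c (node x) else f x

variable {G : Dag α} {V : Finset α} {f g : Var α k → Fin k} {B : Prog α k S} {s : S}

theorem ovr_out {c : α → Fin k} {x : Var α k} (hx : node x ∉ V) : ovr G f V c x = f x := by
  unfold ovr
  rw [if_neg fun h => hx h.1]

theorem ovr_ne {c : α → Fin k} {x : Var α k} (hx : x ≠ cell G f (node x)) :
    ovr G f V c x = f x := by
  unfold ovr
  rw [if_neg fun h => hx h.2]

theorem ovr_cell {c : α → Fin k} {v : α} (hv : v ∈ V) : ovr G f V c (cell G f v) = c v := by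
  unfold ovr
  rw [node_cell, if_pos ⟨hv, rfl⟩]

theorem first_eq {t v m} {Tf Tg : ℕ} (hrun : ∀ u ≤ t, run B f s u = run B g s u)
    (hf : At B G s f v m Tf) (hg : At B G s g v m Tg) (hT : Tf ≤ t) :
    value G f v = value G g v := by
  rcases lt_trichotomy Tf Tg with h | h | h
  · exfalso
    have h4 : insert (value G f v) {c | ∃ u < Tf, Names G (B.instr (run B f s u)) v c} ⊆
        {c | ∃ u < Tg, Names G (B.instr (run B g s u)) v c} := by
      rintro c (rfl | ⟨u, hu, hc⟩)
      · exact ⟨Tf, h, by rw [← hrun _ hT]; exact hf.1⟩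
      · exact ⟨u, hu.trans h, by rw [← hrun u (by omega)]; exact hc⟩
    have h5 : value G f v ∉ {c | ∃ u < Tf, Names G (B.instr (run B f s u)) v c} := by
      rintro ⟨u, hu, hc⟩
      exact (hf.2.1 u hu).1 hc
    have h6 := Set.ncard_le_ncard h4 (Set.toFinite _)
    rw [Set.ncard_insert_of_notMem h5 (Set.toFinite _), hf.2.2, hg.2.2] at h6
    omega
  · have h2 := hg.1
    rw [← h, ← hrun _ hT] at h2
    exact names_unique hf.1 h2
  · exfalso
    have h4 : insert (value G g v) {c | ∃ u < Tg, Names G (B.instr (run B g s u)) v c} ⊆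
        {c | ∃ u < Tf, Names G (B.instr (run B f s u)) v c} := by
      rintro c (rfl | ⟨u, hu, hc⟩)
      · exact ⟨Tg, h, by rw [hrun _ (by omega)]; exact hg.1⟩
      · exact ⟨u, hu.trans h, by rw [hrun u (by omega)]; exact hc⟩
    have h5 : value G g v ∉ {c | ∃ u < Tg, Names G (B.instr (run B g s u)) v c} := by
      rintro ⟨u, hu, hc⟩
      exact (hg.2.1 u hu).1 hc
    have h6 := Set.ncard_le_ncard h4 (Set.toFinite _)
    rw [Set.ncard_insert_of_notMem h5 (Set.toFinite _), hf.2.2, hg.2.2] at h6
    omega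

theorem value_of_cell {c d : α → Fin k} (hκ : ovr G f V c = ovr G g V d) {v : α} (hv : v ∉ V)
    (hc : cell G f v = cell G g v) : value G f v = value G g v := by
  rw [value_eq, value_eq, ← hc]
  have h1 : node (cell G f v) ∉ V := by rw [node_cell]; exact hv
  rw [← ovr_out (G := G) (f := f) (c := c) h1, hκ, ovr_out h1]

theorem right_eq {c d : α → Fin k} {m : α → ℕ} (hκ : ovr G f V c = ovr G g V d)
    (hf : Cls B G s V m f) (hg : Cls B G s V m g) :
    ∀ t, (∀ u ≤ t, run B f s u = run B g s u) → ∀ v ∈ G.nodes,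
      Names G (B.instr (run B f s t)) v (value G f v) → value G f v = value G g v := by
  intro t
  induction t using Nat.strong_induction_on with
  | _ t ih =>
    intro hrun v hv hn
    by_cases hV : v ∈ V
    · obtain ⟨Tf, hTf⟩ := hf.1 v hV
      obtain ⟨Tg, hTg⟩ := hg.1 v hV
      refine first_eq hrun hTf hTg ?_
      by_contra hlt
      push Not at hlt
      exact (hTf.2.1 t hlt).1 hn
    · obtain ⟨r, hr, hread⟩ := hf.2 v hv hV t hn
      refine value_of_cell hκ hV (cell_congr fun l r' hlr => ?_)
      have h1 := names_children (f := f) hlr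
      rw [← hread] at h1
      have h2 := G.ch_mem v l r' hv hlr
      have h3 := fun u (hu : u ≤ r) => hrun u (by omega)
      exact ⟨ih r hr h3 l h2.1 h1.1, ih r hr h3 r' h2.2 h1.2⟩

theorem query_aux {c d : α → Fin k} {m : α → ℕ} (hVn : V ⊆ G.nodes)
    (hκ : ovr G f V c = ovr G g V d)
    (hf : Cls B G s V m f) (hg : Cls B G s V m g) {t : ℕ}
    (hrun : ∀ u ≤ t, run B f s u = run B g s u) {v : α} (hV : v ∈ V)
    (hi : B.instr (run B f s t) = .query (cell G f v)) :
    cell G f v = cell G g v ∧ value G f v = value G g v := by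
  refine ⟨cell_congr fun l r hlr => ?_, ?_⟩
  · have h1 := names_children (f := f) hlr
    rw [← hi] at h1
    have h2 := G.ch_mem v l r (hVn hV) hlr
    exact ⟨right_eq hκ hf hg t hrun l h2.1 h1.1, right_eq hκ hf hg t hrun r h2.2 h1.2⟩
  · obtain ⟨Tf, hTf⟩ := hf.1 v hV
    obtain ⟨Tg, hTg⟩ := hg.1 v hV
    refine first_eq hrun hTf hTg ?_
    by_contra hlt
    push Not at hlt
    exact (hTf.2.1 t hlt).2 hi

theorem query_eq {c d : α → Fin k} {m : α → ℕ} (hVn : V ⊆ G.nodes)
    (hκ : ovr G f V c = ovr G g V d)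
    (hf : Cls B G s V m f) (hg : Cls B G s V m g) {t : ℕ}
    (hrun : ∀ u ≤ t, run B f s u = run B g s u) {x : Var α k}
    (hi : B.instr (run B f s t) = .query x) : f x = g x := by
  by_cases hV : node x ∈ V
  · by_cases hx : x = cell G f (node x)
    · rw [hx] at hi
      obtain ⟨h1, h2⟩ := query_aux hVn hκ hf hg hrun hV hi
      rw [value_eq, value_eq, ← h1, ← hx] at h2
      exact h2
    · by_cases hx' : x = cell G g (node x)
      · have hi' : B.instr (run B g s t) = .query (cell G g (node x)) := by
          rw [← hrun t le_rfl, ← hx']; exact hi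
        obtain ⟨h1, h2⟩ := query_aux hVn hκ.symm hg hf (fun u hu => (hrun u hu).symm) hV hi'
        rw [value_eq, value_eq, ← h1, ← hx'] at h2
        exact h2.symm
      · rw [← ovr_ne (V := V) (c := c) hx, hκ, ovr_ne hx']
  · rw [← ovr_out (G := G) (f := f) (c := c) hV, hκ, ovr_out hV]

theorem ovr_inj {c d : α → Fin k} {m : α → ℕ} (hVn : V ⊆ G.nodes)
    (hκ : ovr G f V c = ovr G g V d)
    (hf : Cls B G s V m f) (hg : Cls B G s V m g) : f = g ∧ ∀ v ∈ V, c v = d v := by
  have hrun : ∀ t, run B f s t = run B g s t := fun t =>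
    run_congr (T := t) (fun t' _ hr x hx => query_eq hVn hκ hf hg hr hx) t le_rfl
  have hval : ∀ v, v ∈ G.nodes → value G f v = value G g v := by
    intro v
    refine dag_induction G (P := fun v => v ∈ G.nodes → value G f v = value G g v) ?_ v
    intro v ih hv
    by_cases hV : v ∈ V
    · obtain ⟨Tf, hTf⟩ := hf.1 v hV
      obtain ⟨Tg, hTg⟩ := hg.1 v hV
      exact first_eq (t := Tf) (fun u _ => hrun u) hTf hTg le_rfl
    · refine value_of_cell hκ hV (cell_congr fun l r hlr => ?_)
      have h1 := G.ch_mem v l r hv hlr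
      exact ⟨(ih l r hlr).1 h1.1, (ih l r hlr).2 h1.2⟩
  have hcell : ∀ v ∈ G.nodes, cell G f v = cell G g v := fun v hv =>
    cell_congr fun l r hlr => by
      have h1 := G.ch_mem v l r hv hlr
      exact ⟨hval l h1.1, hval r h1.2⟩
  have hfg : f = g := by
    funext x
    by_cases hV : node x ∈ V
    · have h1 := hcell _ (hVn hV)
      by_cases hx : x = cell G f (node x)
      · have h2 := hval _ (hVn hV)
        rw [value_eq, value_eq, ← h1, ← hx] at h2
        exact h2
      · have hx' : x ≠ cell G g (node x) := by rw [← h1]; exact hx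
        rw [← ovr_ne (V := V) (c := c) hx, hκ, ovr_ne hx']
    · rw [← ovr_out (G := G) (f := f) (c := c) hV, hκ, ovr_out hV]
  refine ⟨hfg, fun v hv => ?_⟩
  subst hfg
  rw [← ovr_cell (G := G) (f := f) (c := c) hv, hκ, ovr_cell hv]

open Classical in
theorem cls_card [NeZero k] (hVn : V ⊆ G.nodes) (B : Prog α k S) (s : S) (m : α → ℕ) :
    (Finset.univ.filter fun I : Inp G k => Cls B G s V m (ext I)).card * k ^ V.card ≤
      Fintype.card (Inp G k) := by
  have hovr : ∀ (I : Inp G k) (c : α → Fin k),
      ext (fun x : {x : Var α k // Valid G x} => ovr G (ext I) V c x.1) = ovr G (ext I) V c := by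
    intro I c
    funext x
    by_cases hx : Valid G x
    · exact ext_valid _ ⟨x, hx⟩
    · rw [ext_invalid _ hx]
      unfold ovr
      rw [if_neg, ext_invalid _ hx]
      rintro ⟨h1, h2⟩
      exact hx (by rw [h2]; exact valid_cell _ (hVn h1))
  have h1 : Function.Injective (fun y : {I : Inp G k // Cls B G s V m (ext I)} × (V → Fin k) =>
      (fun x : {x : Var α k // Valid G x} =>
        ovr G (ext y.1.1) V (fun v => if hv : v ∈ V then y.2 ⟨v, hv⟩ else 0) x.1 : Inp G k)) := by
    rintro ⟨⟨I, hI⟩, c⟩ ⟨⟨J, hJ⟩, d⟩ hIJ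
    have h2 := congrArg ext hIJ
    simp only at h2
    rw [hovr, hovr] at h2
    obtain ⟨h3, h4⟩ := ovr_inj hVn h2 hI hJ
    have h5 := ext_inj h3
    subst h5
    have h6 : c = d := by
      funext v
      have := h4 v.1 v.2
      simp only [v.2, dif_pos] at this
      exact this
    subst h6
    rfl
  have h2 := Fintype.card_le_of_injective _ h1
  rw [Fintype.card_prod, Fintype.card_fun, Fintype.card_fin, Fintype.card_coe,
    Fintype.card_subtype] at h2
  exact h2

end Pool.Agent.V8H11.DE
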