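import Pool.Agent.V8H11.DE.Defs

/-!
# Locality
-/

set_option autoImplicit false

namespace Pool.Agent.V8H11.DE

variable {α : Type} {k : ℕ} {S : Type}

/-- the node of a variable -/
def node : Var α k → α
  | .leaf v => v
  | .entry v _ _ => v

theorem cell_leaf {G : Dag α} (f : Var α k → Fin k) {v : α} (hv : G.ch v = none) :
    cell G f v = .leaf v := by
  unfold cell
  rw [hv]

theorem cell_inner {G : Dag α} (f : Var α k → Fin k) {v l r : α} (hv : G.ch v = some (l, r)) :
    cell G f v = .entry v (value G f l) (value G f r) := by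
  unfold cell
  rw [hv]

theorem value_eq (G : Dag α) (f : Var α k → Fin k) (v : α) :
    value G f v = f (cell G f v) := by
  rw [value]
  split
  · rename_i hv
    rw [cell_leaf f hv]
  · rename_i l r hv
    rw [cell_inner f hv]

theorem node_cell (G : Dag α) (f : Var α k → Fin k) (v : α) : node (cell G f v) = v := by
  rcases hv : G.ch v with _ | ⟨l, r⟩
  · rw [cell_leaf f hv]; rfl
  · rw [cell_inner f hv]; rfl

theorem valid_cell {G : Dag α} (f : Var α k → Fin k) {v : α} (hv : v ∈ G.nodes) :
    Valid G (cell G f v) := by
  rcases hc : G.ch v with _ | ⟨l, r⟩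
  · rw [cell_leaf f hc]; exact ⟨hv, hc⟩
  · rw [cell_inner f hc]; exact ⟨hv, by rw [hc]; simp⟩

/-- the cells agree if the values of the children do -/
theorem cell_congr {G : Dag α} {f g : Var α k → Fin k} {v : α}
    (h : ∀ l r, G.ch v = some (l, r) → value G f l = value G g l ∧ value G f r = value G g r) :
    cell G f v = cell G g v := by
  rcases hv : G.ch v with _ | ⟨l, r⟩
  · rw [cell_leaf f hv, cell_leaf g hv]
  · rw [cell_inner f hv, cell_inner g hv, (h l r hv).1, (h l r hv).2]

/-- induction along the dag -/
theorem dag_induction (G : Dag α) {P : α → Prop}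
    (h : ∀ v, (∀ l r, G.ch v = some (l, r) → P l ∧ P r) → P v) (v : α) : P v := by
  have key : ∀ n, ∀ v, G.rk v = n → P v := by
    intro n
    induction n using Nat.strong_induction_on with
    | _ n ih =>
      intro v hv
      refine h v fun l r hlr => ?_
      have h1 := G.rk_lt v l r hlr
      exact ⟨ih _ (by omega) l rfl, ih _ (by omega) r rfl⟩
  exact key _ v rfl

theorem ext_valid {G : Dag α} [NeZero k] (I : Inp G k) (x : {x : Var α k // Valid G x}) :
    ext I x.1 = I x := by
  unfold ext
  rw [dif_pos x.2]

theorem ext_invalid {G : Dag α} [NeZero k] (I : Inp G k) {x : Var α k} (hx : ¬ Valid G x) :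
    ext I x = 0 := by
  unfold ext
  rw [dif_neg hx]

theorem ext_inj {G : Dag α} [NeZero k] {I J : Inp G k} (hIJ : ext I = ext J) : I = J := by
  funext x
  rw [← ext_valid I x, ← ext_valid J x, hIJ]

theorem names_unique {G : Dag α} {i : Instr α k} {v : α} {a b : Fin k} (ha : Names G i v a)
    (hb : Names G i v b) : a = b := by
  rcases i with (p | ⟨p, c, d⟩) | c
  · exact ha.elim
  · obtain ⟨l, r, h1, h2⟩ := ha
    obtain ⟨l', r', h1', h2'⟩ := hb
    rw [h1] at h1'
    simp only [Option.some.injEq, Prod.mk.injEq] at h1'
    obtain ⟨rfl, rfl⟩ := h1'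
    have hne := G.ne p l r h1
    rcases h2 with ⟨h2, rfl⟩ | ⟨h2, rfl⟩ <;> rcases h2' with ⟨h3, rfl⟩ | ⟨h3, rfl⟩
    · rfl
    · exact absurd (h2.symm.trans h3) hne
    · exact absurd (h3.symm.trans h2) hne
    · rfl
  · exact ha.2.trans hb.2.symm

/-- reading the value of a node names the right values of its children -/
theorem names_children {G : Dag α} {f : Var α k → Fin k} {v l r : α}
    (hv : G.ch v = some (l, r)) :
    Names G (.query (cell G f v)) l (value G f l) ∧
      Names G (.query (cell G f v)) r (value G f r) := by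
  rw [cell_inner f hv]
  exact ⟨⟨l, r, hv, Or.inl ⟨rfl, rfl⟩⟩, ⟨l, r, hv, Or.inr ⟨rfl, rfl⟩⟩⟩

theorem run_zero (B : Prog α k S) (f : Var α k → Fin k) (s : S) : run B f s 0 = s := rfl

theorem run_succ (B : Prog α k S) (f : Var α k → Fin k) (s : S) (t : ℕ) :
    run B f s (t + 1) = step B f (run B f s t) := by
  unfold run
  rw [Function.iterate_succ_apply']

theorem run_add (B : Prog α k S) (f : Var α k → Fin k) (s : S) (t u : ℕ) :
    run B f s (t + u) = run B f (run B f s t) u := by
  unfold run
  rw [add_comm, Function.iterate_add_apply]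

/-- computations on two inputs coincide as long as the answers do -/
theorem run_congr {B : Prog α k S} {f g : Var α k → Fin k} {s : S} {T : ℕ}
    (hfg : ∀ t < T, (∀ u ≤ t, run B f s u = run B g s u) →
      ∀ x, B.instr (run B f s t) = .query x → f x = g x) :
    ∀ t ≤ T, run B f s t = run B g s t := by
  intro t
  induction t using Nat.strong_induction_on with
  | _ t ih =>
    intro ht
    rcases t with _ | t
    · rfl
    · have h1 := ih t (by omega) (by omega)
      rw [run_succ, run_succ, ← h1]
      unfold step
      rcases hi : B.instr (run B f s t) with x | a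
      · simp only
        rw [hfg t (by omega) (fun u hu => ih u (by omega) (by omega)) x hi]
      · rfl

end Pool.Agent.V8H11.DE
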