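import Pool.Agent.V8H11.DE.Crit

/-!
# Lucky first namings are rare
-/

set_option autoImplicit false

namespace Pool.Agent.V8H11.DE

variable {α : Type} {k : ℕ} {S : Type}

/-- the right value of `v` is named at time `t`, and the value of `v` was not read before -/
def LuckyAt (B : Prog α k S) (G : Dag α) (f : Var α k → Fin k) (t : ℕ) (v : α) : Prop :=
  Names G (ins B f t) v (value G f v) ∧ ∀ u < t, ins B f u ≠ .query (cell G f v)

/-- some right value is named without having been read -/
def Lucky (B : Prog α k S) (G : Dag α) (f : Var α k → Fin k) : Prop :=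
  ∃ t, ∃ v ∈ G.nodes, LuckyAt B G f t v

/-- the blind wrong values named before time `t` -/
def blindBefore (B : Prog α k S) (G : Dag α) (f : Var α k → Fin k) (t : ℕ) : Set (α × Fin k) :=
  {z | z.1 ∈ G.nodes ∧ z.2 ≠ value G f z.1 ∧
    ∃ u < t, Names G (ins B f u) z.1 z.2 ∧ ∀ w < u, ins B f w ≠ .query (cell G f z.1)}

/-- the first blind wrong values named -/
def early (B : Prog α k S) (G : Dag α) (p : ℕ) (f : Var α k → Fin k) : Set (α × Fin k) :=
  {y | y.1 ∈ G.nodes ∧ y.2 ≠ value G f y.1 ∧
    ∃ t, (Names G (ins B f t) y.1 y.2 ∧ ∀ w < t, ins B f w ≠ .query (cell G f y.1)) ∧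
      (blindBefore B G f t).ncard ≤ p}

theorem finite_nodes (G : Dag α) (k : ℕ) : {z : α × Fin k | z.1 ∈ G.nodes}.Finite := by
  refine ((G.nodes.finite_toSet).prod (Set.finite_univ (α := Fin k))).subset ?_
  rintro ⟨v, a⟩ hv
  exact ⟨hv, Set.mem_univ _⟩

theorem names_card (G : Dag α) (i : Instr α k) : {z : α × Fin k | Names G i z.1 z.2}.Finite ∧
    {z : α × Fin k | Names G i z.1 z.2}.ncard ≤ 2 := by
  have pair : ∀ a b : α × Fin k, {z : α × Fin k | Names G i z.1 z.2} ⊆ {a, b} →
      {z : α × Fin k | Names G i z.1 z.2}.Finite ∧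
        {z : α × Fin k | Names G i z.1 z.2}.ncard ≤ 2 := by
    intro a b hab
    have h1 : ({a, b} : Set (α × Fin k)).Finite := Set.toFinite _
    refine ⟨h1.subset hab, (Set.ncard_le_ncard hab h1).trans ?_⟩
    exact (Set.ncard_insert_le _ _).trans (by rw [Set.ncard_singleton])
  rcases i with (v | ⟨v, a, b⟩) | a
  · have h1 : {z : α × Fin k | Names G (.query (.leaf v)) z.1 z.2} = ∅ := by
      ext z
      exact ⟨fun hz => hz.elim, fun hz => hz.elim⟩
    rw [h1]
    exact ⟨Set.finite_empty, by rw [Set.ncard_empty]; omega⟩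
  · rcases hv : G.ch v with _ | ⟨l, r⟩
    · have h1 : {z : α × Fin k | Names G (.query (.entry v a b)) z.1 z.2} = ∅ := by
        ext z
        refine ⟨?_, fun hz => hz.elim⟩
        rintro ⟨l, r, h2, -⟩
        rw [hv] at h2
        simp at h2
      rw [h1]
      exact ⟨Set.finite_empty, by rw [Set.ncard_empty]; omega⟩
    · refine pair (l, a) (r, b) ?_
      rintro ⟨u, c⟩ ⟨l', r', h2, h3⟩
      rw [hv] at h2
      simp only [Option.some.injEq, Prod.mk.injEq] at h2
      obtain ⟨rfl, rfl⟩ := h2
      rcases h3 with ⟨h1, h2⟩ | ⟨h1, h2⟩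
      · left; simp only at h1 h2; rw [h1, h2]
      · right; simp only at h1 h2; rw [h1, h2]; rfl
  · refine pair (G.root, a) (G.root, a) ?_
    rintro ⟨v, c⟩ ⟨h1, h2⟩
    left; simp only at h1 h2; rw [h1, h2]

theorem early_card (B : Prog α k S) (G : Dag α) (p : ℕ) (f : Var α k → Fin k) :
    (early B G p f).Finite ∧ (early B G p f).ncard ≤ p + 2 := by
  have hfin : (early B G p f).Finite := (finite_nodes G k).subset fun y hy => hy.1
  refine ⟨hfin, ?_⟩
  rcases (early B G p f).eq_empty_or_nonempty with he | hne
  · rw [he, Set.ncard_empty]; omega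
  have hex : ∀ y : α × Fin k, ∃ t, y ∈ early B G p f →
      (Names G (ins B f t) y.1 y.2 ∧ ∀ w < t, ins B f w ≠ .query (cell G f y.1)) ∧
        (blindBefore B G f t).ncard ≤ p := by
    intro y
    by_cases hy : y ∈ early B G p f
    · obtain ⟨t, ht⟩ := hy.2.2
      exact ⟨t, fun _ => ht⟩
    · exact ⟨0, fun h => absurd h hy⟩
  choose T hT using hex
  obtain ⟨y0, hy0, hmax⟩ := Set.exists_max_image (early B G p f) T hfin hne
  have hsub : early B G p f ⊆ blindBefore B G f (T y0) ∪
      {z : α × Fin k | Names G (ins B f (T y0)) z.1 z.2} := by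
    intro y hy
    rcases Nat.eq_or_lt_of_le (hmax y hy) with h1 | h1
    · right
      have := (hT y hy).1.1
      rw [h1] at this
      exact this
    · left
      exact ⟨hy.1, hy.2.1, T y, h1, (hT y hy).1⟩
  have h1 := names_card G (ins B f (T y0))
  have h2 : (blindBefore B G f (T y0)).Finite := (finite_nodes G k).subset fun y hy => hy.1
  have h3 := Set.ncard_le_ncard hsub (h2.union h1.1)
  have h4 := Set.ncard_union_le (blindBefore B G f (T y0))
    {z : α × Fin k | Names G (ins B f (T y0)) z.1 z.2}
  have h5 := (hT y0 hy0).2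
  omega

/-- before the first lucky naming no node whose value depends on it is named rightly -/
theorem no_right {B : Prog α k S} {G : Dag α} {f g : Var α k → Fin k} {t : ℕ} {v : α}
    (hL : LuckyAt B G f t v)
    (hmin : ∀ t1 < t, ∀ u ∈ G.nodes, ¬ LuckyAt B G f t1 u)
    (hother : ∀ x, node x ≠ v → f x = g x) (u : α) :
    u ∈ G.nodes → value G f u ≠ value G g u → ∀ t1 < t, ¬ Names G (ins B f t1) u (value G f u) := by
  refine dag_induction G (P := fun u => u ∈ G.nodes → value G f u ≠ value G g u → ∀ t1 < t,
    ¬ Names G (ins B f t1) u (value G f u)) ?_ u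
  intro u ih hu hne t1 ht1 hn
  have h3 := hmin t1 ht1 u hu
  unfold LuckyAt at h3
  push Not at h3
  obtain ⟨t2, ht2, h4⟩ := h3 hn
  by_cases huv : u = v
  · subst huv
    exact hL.2 t2 (by omega) h4
  · apply hne
    have hc : cell G f u = cell G g u := cell_congr fun l r hlr => by
      have h5 := G.ch_mem u l r hu hlr
      have h6 := names_children (f := f) hlr
      rw [← h4] at h6
      constructor
      · by_contra hl
        exact (ih l r hlr).1 h5.1 hl t2 (by omega) h6.1
      · by_contra hr
        exact (ih l r hlr).2 h5.2 hr t2 (by omega) h6.2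
    rw [value_eq, value_eq, ← hc]
    exact hother _ (by rw [node_cell]; exact huv)

/-- changing the value of the node of the first lucky naming -/
theorem change {B : Prog α k S} {G : Dag α} {p : ℕ}
    {f g : Var α k → Fin k} {t : ℕ}
    {v : α} {a : Fin k} (hv : v ∈ G.nodes) (hL : LuckyAt B G f t v)
    (hmin : ∀ t1 < t, ∀ u ∈ G.nodes, ¬ LuckyAt B G f t1 u)
    (ha : a ≠ value G f v) (hg : g = Function.update f (cell G f v) a)
    (hp : (blind B G f).ncard ≤ p) :
    cell G g v = cell G f v ∧ (v, value G f v) ∈ early B G p g := by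
  have hother : ∀ x, x ≠ cell G f v → f x = g x := fun x hx => by
    rw [hg, Function.update_of_ne hx]
  have hother' : ∀ x, node x ≠ v → f x = g x := fun x hx => hother x fun he => hx (by
    rw [he, node_cell])
  -- values of nodes of smaller rank do not change
  have hlow : ∀ u, G.rk u < G.rk v → value G f u = value G g u := by
    intro u
    refine dag_induction G (P := fun u => G.rk u < G.rk v → value G f u = value G g u) ?_ u
    intro u ih hu
    have hne : u ≠ v := by
      rintro rfl
      exact lt_irrefl _ hu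
    have hc : cell G f u = cell G g u := cell_congr fun l r hlr => by
      have h1 := G.rk_lt u l r hlr
      exact ⟨(ih l r hlr).1 (h1.1.trans hu), (ih l r hlr).2 (h1.2.trans hu)⟩
    rw [value_eq, value_eq, ← hc]
    exact hother' _ (by rw [node_cell]; exact hne)
  have hcell : cell G g v = cell G f v := (cell_congr fun l r hlr => by
    have h1 := G.rk_lt v l r hlr
    exact ⟨hlow l h1.1, hlow r h1.2⟩).symm
  have hval : value G g v = a := by
    rw [value_eq, hcell, hg, Function.update_self]
  have hrun : ∀ t1 ≤ t, ins B f t1 = ins B g t1 := fun t1 ht1 => by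
    unfold ins
    rw [run_congr (T := t) (fun t2 ht2 _ x hx => hother x fun he => hL.2 t2 ht2 (by
      unfold ins; rw [hx, he])) t1 ht1]
  refine ⟨hcell, hv, ?_, t, ⟨?_, ?_⟩, ?_⟩
  · show value G f v ≠ value G g v
    rw [hval]; exact ha.symm
  · show Names G (ins B g t) v (value G f v)
    rw [← hrun t le_rfl]; exact hL.1
  · intro w hw
    show ins B g w ≠ .query (cell G g v)
    rw [← hrun w hw.le, hcell]
    exact hL.2 w hw
  · have hsub : blindBefore B G g t ⊆ blind B G f := by
      rintro ⟨u, c⟩ ⟨hu, hc, t1, ht1, hn, hnr⟩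
      simp only at hu hc hn hnr
      rw [← hrun t1 ht1.le] at hn
      refine ⟨hu, ?_, t1, hn, ?_⟩
      · show c ≠ value G f u
        intro hcf
        by_cases hs : value G f u = value G g u
        · exact hc (hcf.trans hs)
        · rw [hcf] at hn
          exact no_right hL hmin hother' u hu hs t1 ht1 hn
      · intro w hw
        show ins B f w ≠ .query (cell G f u)
        intro hq
        have h6 : cell G f u = cell G g u := cell_congr fun l r hlr => by
          have h5 := G.ch_mem u l r hu hlr
          have h7 := names_children (f := f) hlr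
          rw [← hq] at h7
          constructor
          · by_contra hl
            exact no_right hL hmin hother' l h5.1 hl w (by omega) h7.1
          · by_contra hr
            exact no_right hL hmin hother' r h5.2 hr w (by omega) h7.2
        apply hnr w hw
        rw [← hrun w (by omega), ← h6]
        exact hq
    have hfin : (blind B G f).Finite := (finite_nodes G k).subset fun y hy => hy.1
    exact (Set.ncard_le_ncard hsub hfin).trans hp

theorem exists_first {B : Prog α k S} {G : Dag α} {f : Var α k → Fin k} (hL : Lucky B G f) :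
    ∃ v ∈ G.nodes, ∃ t, LuckyAt B G f t v ∧
      ∀ t1 < t, ∀ u ∈ G.nodes, ¬ LuckyAt B G f t1 u := by
  classical
  have hex : ∃ t, ∃ v ∈ G.nodes, LuckyAt B G f t v := hL
  obtain ⟨v, hv, hat⟩ := Nat.find_spec hex
  exact ⟨v, hv, _, hat, fun t1 ht1 u hu hc => Nat.find_min hex ht1 ⟨u, hu, hc⟩⟩

open Classical in
theorem lucky_card [NeZero k] (B : Prog α k S) (G : Dag α) (p q : ℕ) :
    ((good B G p q).filter fun I => Lucky B G (ext I)).card * (k - 1) ≤
      (p + 2) * Fintype.card (Inp G k) := by
  set L := (good B G p q).filter fun I => Lucky B G (ext I) with hLdef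
  have hex : ∀ I : Inp G k, ∃ v : α, I ∈ L → v ∈ G.nodes ∧ ∃ t, LuckyAt B G (ext I) t v ∧
      ∀ t1 < t, ∀ u ∈ G.nodes, ¬ LuckyAt B G (ext I) t1 u := by
    intro I
    by_cases hI : I ∈ L
    · obtain ⟨v, hv⟩ := exists_first (Finset.mem_filter.mp hI).2
      exact ⟨v, fun _ => hv⟩
    · exact ⟨G.root, fun h => absurd h hI⟩
  choose v hv using hex
  set P : Finset (Inp G k × Fin k) :=
    (L ×ˢ Finset.univ).filter fun y => y.2 ≠ value G (ext y.1) (v y.1) with hP
  have hPcard : P.card = L.card * (k - 1) := by
    have h1 : P = L.biUnion fun I =>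
        (Finset.univ.filter fun a : Fin k => a ≠ value G (ext I) (v I)).image fun a => (I, a) := by
      ext ⟨I, a⟩
      simp only [hP, Finset.mem_filter, Finset.mem_product, Finset.mem_univ, and_true,
        Finset.mem_biUnion, Finset.mem_image, true_and, Prod.mk.injEq]
      constructor
      · rintro ⟨h2, h3⟩
        exact ⟨I, h2, a, h3, rfl, rfl⟩
      · rintro ⟨I', h2, a', h3, rfl, rfl⟩
        exact ⟨h2, h3⟩
    rw [h1, Finset.card_biUnion]
    · have h2 : ∀ I ∈ L, ((Finset.univ.filter fun a : Fin k => a ≠ value G (ext I) (v I)).image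
          fun a => (I, a)).card = k - 1 := by
        intro I _
        rw [Finset.card_image_of_injective _ (fun a b hab => (Prod.mk.inj hab).2),
          Finset.filter_ne', Finset.card_erase_of_mem (Finset.mem_univ _), Finset.card_univ,
          Fintype.card_fin]
      rw [Finset.sum_congr rfl h2, Finset.sum_const, smul_eq_mul]
    · intro I _ J _ hIJ
      rw [Function.onFun, Finset.disjoint_left]
      rintro ⟨I', a⟩ h2 h3
      rw [Finset.mem_image] at h2 h3
      obtain ⟨_, _, h4⟩ := h2
      obtain ⟨_, _, h5⟩ := h3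
      exact hIJ ((Prod.mk.inj h4).1.trans (Prod.mk.inj h5).1.symm)
  -- the map
  set Φ : Inp G k × Fin k → Inp G k := fun y =>
    fun x => Function.update (ext y.1) (cell G (ext y.1) (v y.1)) y.2 x.1 with hΦ
  have hext : ∀ y ∈ P, ext (Φ y) = Function.update (ext y.1) (cell G (ext y.1) (v y.1)) y.2 := by
    rintro ⟨I, a⟩ hy
    have hI : I ∈ L := (Finset.mem_product.mp (Finset.mem_filter.mp hy).1).1
    funext x
    by_cases hx : Valid G x
    · exact ext_valid _ ⟨x, hx⟩
    · rw [ext_invalid _ hx, Function.update_of_ne, ext_invalid _ hx]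
      rintro rfl
      exact hx (valid_cell _ (hv I hI).1)
  have hch : ∀ y ∈ P, cell G (ext (Φ y)) (v y.1) = cell G (ext y.1) (v y.1) ∧
      (v y.1, value G (ext y.1) (v y.1)) ∈ early B G p (ext (Φ y)) := by
    rintro ⟨I, a⟩ hy
    have hI : I ∈ L := (Finset.mem_product.mp (Finset.mem_filter.mp hy).1).1
    obtain ⟨h1, t, h2, h3⟩ := hv I hI
    have h4 : (blind B G (ext I)).ncard ≤ p :=
      ((Finset.mem_filter.mp (Finset.mem_filter.mp hI).1).2).2.1
    exact change h1 h2 h3 (Finset.mem_filter.mp hy).2 (hext _ hy) h4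
  rw [← hPcard]
  have hfib : ∀ J ∈ (Finset.univ : Finset (Inp G k)), (P.filter fun y => Φ y = J).card ≤ p + 2 := by
    intro J _
    have h1 := early_card B G p (ext J)
    have h2 : (P.filter fun y => Φ y = J).card ≤ (h1.1.toFinset).card := by
      refine Finset.card_le_card_of_injOn (fun y => (v y.1, value G (ext y.1) (v y.1))) ?_ ?_
      · intro y hy
        have hy' := Finset.mem_filter.mp (Finset.mem_coe.mp hy)
        simp only [Set.Finite.coe_toFinset]
        have := (hch y hy'.1).2
        rw [hy'.2] at this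
        exact this
      · rintro ⟨I, a⟩ hy ⟨I2, a2⟩ hy2 heq
        have hy' := Finset.mem_filter.mp (Finset.mem_coe.mp hy)
        have hy2' := Finset.mem_filter.mp (Finset.mem_coe.mp hy2)
        simp only [Prod.mk.injEq] at heq
        obtain ⟨e1, e2⟩ := heq
        have t1 := (hch _ hy'.1).1
        have t2 := (hch _ hy2'.1).1
        rw [hy'.2] at t1
        rw [hy2'.2] at t2
        simp only at t1 t2
        have x1 := hext _ hy'.1
        have x2 := hext _ hy2'.1
        rw [hy'.2] at x1
        rw [hy2'.2] at x2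
        simp only at x1 x2
        have y1 : ext I = Function.update (ext J) (cell G (ext J) (v I))
            (value G (ext I) (v I)) := by
          rw [t1, value_eq, x1, Function.update_idem, Function.update_eq_self]
        have y2 : ext I2 = Function.update (ext J) (cell G (ext J) (v I2))
            (value G (ext I2) (v I2)) := by
          rw [t2, value_eq, x2, Function.update_idem, Function.update_eq_self]
        have y3 : I = I2 := ext_inj (by rw [y1, y2, e2, e1])
        subst y3
        have z1 : a = ext J (cell G (ext I) (v I)) := by rw [x1, Function.update_self]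
        have z2 : a2 = ext J (cell G (ext I) (v I)) := by rw [x2, Function.update_self]
        rw [z1, z2]
    refine h2.trans ?_
    rw [← Set.ncard_eq_toFinset_card _ h1.1]
    exact h1.2
  have h3 := Finset.card_le_mul_card_image_of_maps_to (s := P) (t := Finset.univ) (f := Φ)
    (fun _ _ => Finset.mem_univ _) (p + 2) hfib
  rwa [Finset.card_univ] at h3

end Pool.Agent.V8H11.DE
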