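import Pool.Agent.V8H11.DE.Inj
import Pool.Agent.V8H11.DE.Lucky

/-!
# The lower bound
-/

set_option autoImplicit false

namespace Pool.Agent.V8H11.DE

variable {α : Type} {k : ℕ} {S : Type}

theorem exists_last {P : ℕ → Prop} {T : ℕ} (h : ∃ r < T, P r) :
    ∃ r < T, P r ∧ ∀ u, r < u → u < T → ¬ P u := by
  induction T with
  | zero => obtain ⟨r, hr, _⟩ := h; omega
  | succ T ih =>
    by_cases hT : P T
    · exact ⟨T, by omega, hT, fun u h1 h2 => by omega⟩
    · obtain ⟨r, hr, hP⟩ := h
      have hrT : r ≠ T := fun h => hT (h ▸ hP)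
      obtain ⟨r', h1, h2, h3⟩ := ih ⟨r, by omega, hP⟩
      refine ⟨r', by omega, h2, fun u h4 h5 => ?_⟩
      rcases Nat.lt_succ_iff_lt_or_eq.mp h5 with h6 | h6
      · exact h3 u h4 h6
      · rw [h6]; exact hT

theorem need_at {B : Prog α k S} {G : Dag α} {q : ℕ} {f : Var α k → Fin k} {τ : ℕ} {v : α}
    (hv : v ∈ G.nodes) (hn : Need G f (ins B f) τ v) (hq : Tame B G q f)
    (hL : ¬ Lucky B G f) :
    ∃ m T, m ≤ q ∧ At B G (run B f B.start τ) f v m T := by
  classical
  obtain ⟨T', hT', hnm, hno⟩ := hn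
  have hins : ∀ u, ins B f (τ + u) = B.instr (run B f (run B f B.start τ) u) := fun u => by
    unfold ins
    rw [run_add]
  have hex : ∃ T, Names G (B.instr (run B f (run B f B.start τ) T)) v (value G f v) := by
    refine ⟨T' - τ, ?_⟩
    rw [← hins, show τ + (T' - τ) = T' by omega]
    exact hnm
  have hle : Nat.find hex ≤ T' - τ := by
    apply Nat.find_min' hex
    rw [← hins, show τ + (T' - τ) = T' by omega]
    exact hnm
  have hwin : ∀ u, τ ≤ u → u < τ + Nat.find hex → ins B f u ≠ .query (cell G f v) ∧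
      ¬ Names G (ins B f u) v (value G f v) := fun u hu1 hu2 => ⟨hno u hu1 (by omega), by
    have h2 := Nat.find_min hex (m := u - τ) (by omega)
    rw [← hins, show τ + (u - τ) = u by omega] at h2
    exact h2⟩
  have hright : Names G (ins B f (τ + Nat.find hex)) v (value G f v) := by
    rw [hins]; exact Nat.find_spec hex
  refine ⟨_, Nat.find hex, ?_, Nat.find_spec hex, fun u hu => ⟨Nat.find_min hex hu, ?_⟩, rfl⟩
  · -- the value of `v` was read before
    have hread : ∃ r < τ + Nat.find hex,
        (ins B f r = .query (cell G f v) ∨ Names G (ins B f r) v (value G f v)) := by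
      by_contra hcon
      push Not at hcon
      exact hL ⟨τ + Nat.find hex, v, hv, hright, fun u hu => (hcon u hu).1⟩
    obtain ⟨r, hr, hev, hlast⟩ := exists_last hread
    have hrτ : r < τ := by
      by_contra hge
      rcases hev with h | h
      · exact (hwin r (by omega) hr).1 h
      · exact (hwin r (by omega) hr).2 h
    have h1 := hq v hv r (τ + Nat.find hex) hr hev hright fun u hu1 hu2 => by
      have := hlast u hu1 hu2
      push Not at this
      exact this
    have h2 : {c | ∃ u < Nat.find hex, Names G (B.instr (run B f (run B f B.start τ) u)) v c} ⊆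
        {c | ∃ u, r < u ∧ u < τ + Nat.find hex ∧ Names G (ins B f u) v c} := by
      rintro c ⟨u, hu, hc⟩
      exact ⟨τ + u, by omega, by omega, by rw [hins]; exact hc⟩
    exact (Set.ncard_le_ncard h2 (Set.toFinite _)).trans h1
  · rw [← hins]
    exact hno (τ + u) (by omega) (by omega)

theorem in_class {B : Prog α k S} {G : Dag α} {q π : ℕ} (hπ : PebblingBound G π)
    {f : Var α k → Fin k}
    (hcor : ∃ t, ins B f t = .output (value G f G.root))
    (hq : Tame B G q f) (hL : ¬ Lucky B G f) :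
    ∃ (s : S) (V : Finset α) (m : V → Fin (q + 1)), V ⊆ G.nodes ∧ π ≤ V.card ∧
      ∀ m' : α → ℕ, (∀ v : V, m' v.1 = (m v).val) → Cls B G s V m' f := by
  classical
  obtain ⟨T, hT⟩ := hcor
  have hpeb : Pebbling G (fun t => needSet G f (ins B f) t) T := by
    refine pebbling ?_ ?_
    · rw [hT]; exact ⟨rfl, rfl⟩
    · rintro v hv ⟨T1, _, h2, h3⟩
      exact hL ⟨T1, v, hv, h2, fun u hu => h3 u (Nat.zero_le _) hu⟩
  obtain ⟨τ, _, hτ⟩ := hπ _ T hpeb
  have hex : ∀ v : needSet G f (ins B f) τ, ∃ m : Fin (q + 1), ∃ T,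
      At B G (run B f B.start τ) f v.1 m.val T := by
    intro v
    have hv := mem_needSet.mp v.2
    obtain ⟨m, T, h1, h2⟩ := need_at hv.1 hv.2 hq hL
    exact ⟨⟨m, by omega⟩, T, h2⟩
  choose m hm using hex
  refine ⟨run B f B.start τ, needSet G f (ins B f) τ, m, ?_, hτ, ?_⟩
  · intro v hv
    exact (mem_needSet.mp hv).1
  · intro m' hm'
    refine ⟨fun v hv => ?_, fun v hv hV T1 hn => ?_⟩
    · obtain ⟨T1, hT1⟩ := hm ⟨v, hv⟩
      refine ⟨T1, ?_⟩
      rw [hm' ⟨v, hv⟩]
      exact hT1
    · rw [mem_needSet] at hV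
      by_contra hcon
      push Not at hcon
      refine hV ⟨hv, τ + T1, by omega, ?_, fun u hu1 hu2 => ?_⟩
      · unfold ins
        rw [run_add]
        exact hn
      · have := hcon (u - τ) (by omega)
        unfold ins
        rw [← run_add, show τ + (u - τ) = u by omega] at this
        exact this

open Classical in
theorem unlucky_card [NeZero k] [Fintype S] (B : Prog α k S) {G : Dag α} {p q π : ℕ}
    (hπ : PebblingBound G π) :
    (((good B G p q).filter fun I => ¬ Lucky B G (ext I)).card : ℝ) ≤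
      Fintype.card S * (∑ V ∈ G.nodes.powerset.filter fun V => π ≤ V.card,
        ((q + 1 : ℝ) / k) ^ V.card) * Fintype.card (Inp G k) := by
  set W := G.nodes.powerset.filter fun V => π ≤ V.card with hW
  set C : S → (V : Finset α) → (V → Fin (q + 1)) → Finset (Inp G k) := fun s V m =>
    Finset.univ.filter fun I : Inp G k =>
      Cls B G s V (fun v => if hv : v ∈ V then (m ⟨v, hv⟩).val else 0) (ext I) with hC
  have h1 : ((good B G p q).filter fun I => ¬ Lucky B G (ext I)) ⊆
      (Finset.univ : Finset S).biUnion fun s => W.biUnion fun V =>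
        (Finset.univ : Finset (V → Fin (q + 1))).biUnion fun m => C s V m := by
    intro I hI
    obtain ⟨h2, h3⟩ := Finset.mem_filter.mp hI
    obtain ⟨h4, -, h5⟩ := (Finset.mem_filter.mp h2).2
    obtain ⟨s, V, m, hV, hcard, hc⟩ := in_class hπ h4 h5 h3
    simp only [Finset.mem_biUnion, Finset.mem_univ, true_and]
    refine ⟨s, V, ?_, m, ?_⟩
    · rw [hW, Finset.mem_filter, Finset.mem_powerset]
      exact ⟨hV, hcard⟩
    · rw [hC]
      refine Finset.mem_filter.mpr ⟨Finset.mem_univ _, hc _ fun v => ?_⟩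
      rw [dif_pos v.2]
  have hk0 : (0 : ℝ) < k := by exact_mod_cast Nat.pos_of_neZero k
  have h2 : ∀ s, ∀ V ∈ W, ∀ m, ((C s V m).card : ℝ) ≤
      Fintype.card (Inp G k) / (k : ℝ) ^ V.card := by
    intro s V hV m
    rw [hW, Finset.mem_filter, Finset.mem_powerset] at hV
    rw [le_div_iff₀ (by positivity)]
    exact_mod_cast cls_card hV.1 B s _
  have h3 : ((((Finset.univ : Finset S).biUnion fun s => W.biUnion fun V =>
        (Finset.univ : Finset (V → Fin (q + 1))).biUnion fun m => C s V m).card : ℕ) : ℝ) ≤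
      ∑ s : S, ∑ V ∈ W, ∑ m : V → Fin (q + 1), ((C s V m).card : ℝ) := by
    have h4 : ((Finset.univ : Finset S).biUnion fun s => W.biUnion fun V =>
        (Finset.univ : Finset (V → Fin (q + 1))).biUnion fun m => C s V m).card ≤
        ∑ s : S, ∑ V ∈ W, ∑ m : V → Fin (q + 1), (C s V m).card :=
      Finset.card_biUnion_le.trans (Finset.sum_le_sum fun s _ =>
        Finset.card_biUnion_le.trans (Finset.sum_le_sum fun V _ => Finset.card_biUnion_le))
    exact_mod_cast h4
  calc (((good B G p q).filter fun I => ¬ Lucky B G (ext I)).card : ℝ)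
      ≤ _ := by exact_mod_cast Finset.card_le_card h1
    _ ≤ ∑ s : S, ∑ V ∈ W, ∑ m : V → Fin (q + 1), ((C s V m).card : ℝ) := h3
    _ ≤ ∑ _s : S, ∑ V ∈ W, ∑ _m : V → Fin (q + 1),
        (Fintype.card (Inp G k) : ℝ) / (k : ℝ) ^ V.card :=
        Finset.sum_le_sum fun s _ => Finset.sum_le_sum fun V hV => Finset.sum_le_sum fun m _ =>
          h2 s V hV m
    _ = ∑ _s : S, ∑ V ∈ W, ((q + 1 : ℝ) / k) ^ V.card * Fintype.card (Inp G k) := by
        refine Finset.sum_congr rfl fun s _ => Finset.sum_congr rfl fun V _ => ?_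
        rw [Finset.sum_const, Finset.card_univ, Fintype.card_fun, Fintype.card_fin,
          Fintype.card_coe, nsmul_eq_mul, div_pow]
        push_cast
        ring
    _ = _ := by
        rw [Finset.sum_const, Finset.card_univ, nsmul_eq_mul, ← Finset.sum_mul, mul_assoc]

open Classical in
theorem sum_le {G : Dag α} {π : ℕ} {y : ℝ} (hy : 0 ≤ y) (hy1 : G.nodes.card * y ≤ 1) :
    (∑ V ∈ G.nodes.powerset.filter (fun V => π ≤ V.card), y ^ V.card) ≤
      3 * (G.nodes.card * y) ^ π := by
  set N := G.nodes.card with hN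
  have hN0 : 0 < N := Finset.card_pos.mpr ⟨G.root, G.root_mem⟩
  have hNr : (0 : ℝ) < N := by exact_mod_cast hN0
  have h1 : ∀ V ∈ G.nodes.powerset.filter (fun V => π ≤ V.card), y ^ V.card ≤
      (N * y) ^ π * (1 / N : ℝ) ^ V.card := by
    intro V hV
    have hV2 := (Finset.mem_filter.mp hV).2
    have h2 : y ^ V.card = (N * y) ^ V.card * (1 / N : ℝ) ^ V.card := by
      rw [← mul_pow]
      congr 1
      field_simp
    rw [h2]
    exact mul_le_mul_of_nonneg_right (pow_le_pow_of_le_one (by positivity) hy1 hV2)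
      (by positivity)
  have h3 : (∑ V ∈ G.nodes.powerset, (1 / N : ℝ) ^ V.card) = (1 / N + 1) ^ N := by
    have := Finset.sum_pow_mul_eq_add_pow (1 / N : ℝ) 1 G.nodes
    simpa using this
  have h4 : ((1 : ℝ) / N + 1) ^ N ≤ 3 := by
    have h5 : (1 : ℝ) / N + 1 ≤ Real.exp (1 / N) := Real.add_one_le_exp _
    calc ((1 : ℝ) / N + 1) ^ N ≤ (Real.exp (1 / N)) ^ N := pow_le_pow_left₀ (by positivity) h5 N
      _ = Real.exp 1 := by
          rw [← Real.exp_nat_mul]
          congr 1
          field_simp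
      _ ≤ 3 := by
          have := Real.exp_one_lt_d9
          linarith
  calc (∑ V ∈ G.nodes.powerset.filter (fun V => π ≤ V.card), y ^ V.card)
      ≤ ∑ V ∈ G.nodes.powerset.filter (fun V => π ≤ V.card),
          (N * y) ^ π * (1 / N : ℝ) ^ V.card := Finset.sum_le_sum h1
    _ ≤ ∑ V ∈ G.nodes.powerset, (N * y) ^ π * (1 / N : ℝ) ^ V.card :=
        Finset.sum_le_sum_of_subset_of_nonneg (Finset.filter_subset _ _) fun V _ _ => by
          positivity
    _ = (N * y) ^ π * (1 / N + 1) ^ N := by rw [← Finset.mul_sum, h3]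
    _ ≤ (N * y) ^ π * 3 := mul_le_mul_of_nonneg_left h4 (by positivity)
    _ = _ := by ring

/-- The lower bound. -/
theorem main [NeZero k] [Fintype S] (B : Prog α k S) {G : Dag α} {p q π : ℕ} (hk : 2 ≤ k)
    (hπ : PebblingBound G π) :
    ((good B G p q).card : ℝ) ≤
      (3 * Fintype.card S * (G.nodes.card * (q + 1) / k : ℝ) ^ π + (p + 2) / (k - 1)) *
        Fintype.card (Inp G k) := by
  classical
  have hk1 : (0 : ℝ) < (k : ℝ) - 1 := by
    have : (2 : ℝ) ≤ k := by exact_mod_cast hk
    linarith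
  have hk0 : (0 : ℝ) < k := by linarith
  have hNn : (0 : ℝ) ≤ Fintype.card (Inp G k) := Nat.cast_nonneg _
  rcases le_or_gt ((G.nodes.card * (q + 1) / k : ℝ)) 1 with hc | hc
  · have h1 := lucky_card B G p q
    have h2 := unlucky_card B (p := p) (q := q) hπ
    have h3 : (good B G p q).card = ((good B G p q).filter fun I => Lucky B G (ext I)).card +
        ((good B G p q).filter fun I => ¬ Lucky B G (ext I)).card :=
      (Finset.card_filter_add_card_filter_not _).symm
    set x := ((good B G p q).filter fun I => Lucky B G (ext I)).card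
    set y := ((good B G p q).filter fun I => ¬ Lucky B G (ext I)).card
    have h4 : (x : ℝ) ≤ (p + 2) / (k - 1) * Fintype.card (Inp G k) := by
      have h5 : (x : ℝ) * ((k : ℝ) - 1) ≤ (p + 2) * Fintype.card (Inp G k) := by
        have := (Nat.cast_le (α := ℝ)).mpr h1
        rw [Nat.cast_mul, Nat.cast_sub (by omega)] at this
        push_cast at this
        exact this
      rw [div_mul_eq_mul_div, le_div_iff₀ hk1]
      exact h5
    have h6 := sum_le (G := G) (π := π) (y := (q + 1 : ℝ) / k) (by positivity)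
      (by rw [← mul_div_assoc]; exact hc)
    rw [← mul_div_assoc] at h6
    have h7 : (y : ℝ) ≤ 3 * Fintype.card S * (G.nodes.card * (q + 1) / k : ℝ) ^ π *
        Fintype.card (Inp G k) := by
      refine h2.trans ?_
      refine mul_le_mul_of_nonneg_right ?_ hNn
      calc _ ≤ (Fintype.card S : ℝ) * (3 * (G.nodes.card * (q + 1) / k : ℝ) ^ π) :=
            mul_le_mul_of_nonneg_left h6 (Nat.cast_nonneg _)
        _ = _ := by ring
    rw [h3]
    push_cast
    rw [add_mul]
    linarith
  · have h1 : ((good B G p q).card : ℝ) ≤ Fintype.card (Inp G k) := by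
      exact_mod_cast Finset.card_le_univ _
    have h2 : (1 : ℝ) ≤ Fintype.card S := by
      exact_mod_cast Fintype.card_pos_iff.mpr ⟨B.start⟩
    have h3 : (1 : ℝ) ≤ (G.nodes.card * (q + 1) / k : ℝ) ^ π := one_le_pow₀ hc.le
    have h4 : (0 : ℝ) ≤ (p + 2) / (k - 1) := by positivity
    have h5 : (1 : ℝ) ≤ 3 * Fintype.card S * (G.nodes.card * (q + 1) / k : ℝ) ^ π := by
      have := one_le_mul_of_one_le_of_one_le h2 h3
      nlinarith
    calc ((good B G p q).card : ℝ) ≤ 1 * Fintype.card (Inp G k) := by rw [one_mul]; exact h1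
      _ ≤ _ := mul_le_mul_of_nonneg_right (by linarith) hNn

end Pool.Agent.V8H11.DE
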