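import Pool.Agent.V8H11.DE.Main

/-!
# The pebbling number of pyramids
-/

set_option autoImplicit false

namespace Pool.Agent.V8H11.DE

/-- paths from the root to a leaf, given by the columns -/
def IsPath (h : ℕ) (c : ℕ → ℕ) : Prop :=
  c 0 = 0 ∧ ∀ r, r + 1 < h → c (r + 1) = c r ∨ c (r + 1) = c r + 1

theorem path_mono {h : ℕ} {c : ℕ → ℕ} (hc : IsPath h c) {a b : ℕ} (hab : a ≤ b) (hb : b < h) :
    c a ≤ c b ∧ c b ≤ c a + (b - a) := by
  induction b, hab using Nat.le_induction with
  | base => omega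
  | succ b hab ih =>
    have h1 := ih (by omega)
    rcases hc.2 b hb with h2 | h2 <;> omega

/-- the path which leaves `c` after the level `r` and goes straight on -/
def turn (c : ℕ → ℕ) (r r' : ℕ) : ℕ :=
  if r' ≤ r then c r' else if c (r + 1) = c r then c r + (r' - r) else c r

theorem turn_path {h : ℕ} {c : ℕ → ℕ} (hc : IsPath h c) (r : ℕ) : IsPath h (turn c r) := by
  refine ⟨?_, ?_⟩
  · unfold turn
    rw [if_pos (Nat.zero_le _)]
    exact hc.1
  · intro r' hr'
    have h1 := hc.2 r' hr'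
    unfold turn
    rcases lt_trichotomy r' r with h2 | h2 | h2
    · rw [if_pos (by omega), if_pos (by omega)]
      exact h1
    · subst h2
      rw [if_neg (by omega), if_pos (le_refl _)]
      split_ifs with h3
      · right; omega
      · left; rfl
    · rw [if_neg (show ¬ r' + 1 ≤ r by omega), if_neg (show ¬ r' ≤ r by omega)]
      split_ifs with h3
      · right; omega
      · left; rfl

theorem pyramid_pebbling (h : ℕ) (hh : 0 < h) : PebblingBound (pyramid h hh) h := by
  classical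
  intro P T hP
  obtain ⟨h0, hT, hmove⟩ := hP
  have hroot : ((0, 0) : ℕ × ℕ) ∈ P T := hT
  set A : ℕ → Prop := fun t => ∀ c, IsPath h c → ∃ r < h, (r, c r) ∈ P t with hA
  have hAT : ∃ t, A t := ⟨T, fun c hc => ⟨0, hh, by rw [hc.1]; exact hroot⟩⟩
  have hA0 : ¬ A 0 := by
    intro ha
    obtain ⟨r, _, hr⟩ := ha (fun _ => 0) ⟨rfl, fun _ _ => Or.inl rfl⟩
    rw [h0] at hr
    exact absurd hr (Finset.notMem_empty _)
  obtain ⟨t, htT, ht0, ht1⟩ : ∃ t < T, ¬ A t ∧ A (t + 1) := by
    have h1 := Nat.find_spec hAT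
    have h2 : Nat.find hAT ≠ 0 := fun h => hA0 (h ▸ h1)
    obtain ⟨t, ht⟩ := Nat.exists_eq_succ_of_ne_zero h2
    have h3 : Nat.find hAT ≤ T := Nat.find_min' hAT fun c hc => ⟨0, hh, by rw [hc.1]; exact hroot⟩
    refine ⟨t, by omega, Nat.find_min hAT (by omega), ?_⟩
    rw [ht] at h1
    exact h1
  refine ⟨t + 1, by omega, ?_⟩
  rw [hA] at ht0
  push Not at ht0
  obtain ⟨c, hc, hno⟩ := ht0
  -- the only pebble on the path `c` is on its leaf
  have honly : ∀ r < h, (r, c r) ∈ P (t + 1) → r + 1 = h := by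
    intro r hr hmem
    rcases hmove t htT with hsub | ⟨w, hsub, hch⟩
    · exact absurd (hsub hmem) (hno r hr)
    · have h1 := hsub _ hmem
      rcases h1 with h1 | h1
      · exact absurd h1 (hno r hr)
      · by_contra hne
        have hlt : r + 1 < h := by omega
        have h2 : (pyramid h hh).ch w = some ((r + 1, c r), (r + 1, c r + 1)) := by
          rw [← h1]
          show (if r + 1 < h then _ else _) = _
          rw [if_pos hlt]
        obtain ⟨h3, h4⟩ := hch _ _ h2
        rcases hc.2 r hlt with h5 | h5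
        · exact hno (r + 1) hlt (by rw [h5]; exact h3)
        · exact hno (r + 1) hlt (by rw [h5]; exact h4)
  obtain ⟨r0, hr0, hmem0⟩ := ht1 c hc
  have hr0' := honly r0 hr0 hmem0
  have hex : ∀ r, ∃ x, r + 1 < h → r < x ∧ x < h ∧ (x, turn c r x) ∈ P (t + 1) := by
    intro r
    by_cases hr : r + 1 < h
    · obtain ⟨x, hx, hmem⟩ := ht1 (turn c r) (turn_path hc r)
      refine ⟨x, fun _ => ⟨?_, hx, hmem⟩⟩
      by_contra hle
      have h1 : turn c r x = c x := by
        unfold turn
        rw [if_pos (by omega)]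
      rw [h1] at hmem
      have := honly x hx hmem
      omega
    · exact ⟨0, fun h => absurd h hr⟩
  choose x hx using hex
  set z : ℕ → ℕ × ℕ := fun r => if r + 1 < h then (x r, turn c r (x r)) else (r0, c r0) with hz
  have hzmem : ∀ r ∈ Finset.range h, z r ∈ P (t + 1) := by
    intro r _
    simp only [hz]
    split_ifs with hr
    · exact (hx r hr).2.2
    · exact hmem0
  have hturn : ∀ r, r + 1 < h → (c (r + 1) = c r ∧ turn c r (x r) = c r + (x r - r)) ∨
      (c (r + 1) = c r + 1 ∧ turn c r (x r) = c r) := by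
    intro r hr
    have h1 := (hx r hr).1
    unfold turn
    rw [if_neg (by omega)]
    rcases hc.2 r hr with h2 | h2
    · left
      exact ⟨h2, by rw [if_pos h2]⟩
    · right
      exact ⟨h2, by rw [if_neg (by omega)]⟩
  have key : ∀ r1 r2, r1 < r2 → r2 < h → z r1 ≠ z r2 := by
    intro r1 r2 h12 h2 heq
    have hr1 : r1 + 1 < h := by omega
    have m1 := hx r1 hr1
    have t1 := hturn r1 hr1
    simp only [hz] at heq
    rw [if_pos hr1] at heq
    by_cases hr2 : r2 + 1 < h
    · rw [if_pos hr2, Prod.mk.injEq] at heq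
      have m2 := hx r2 hr2
      have t2 := hturn r2 hr2
      have p1 := path_mono hc (show r1 ≤ r2 by omega) h2
      have p2 := path_mono hc (show r1 + 1 ≤ r2 by omega) h2
      omega
    · rw [if_neg hr2, Prod.mk.injEq] at heq
      have p1 := path_mono hc (show r1 + 1 ≤ r0 by omega) hr0
      omega
  have hinj : Set.InjOn z (Finset.range h : Set ℕ) := by
    intro r1 h1 r2 h2 heq
    rw [Finset.coe_range, Set.mem_Iio] at h1 h2
    rcases lt_trichotomy r1 r2 with h3 | h3 | h3
    · exact absurd heq (key r1 r2 h3 h2)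
    · exact h3
    · exact absurd heq.symm (key r2 r1 h3 h1)
  have := Finset.card_le_card_of_injOn z hzmem hinj
  rwa [Finset.card_range] at this

theorem pyramid_nodes (h : ℕ) (hh : 0 < h) : 2 * (pyramid h hh).nodes.card ≤ h * (h + 1) := by
  have h1 : (pyramid h hh).nodes ⊆ (Finset.range h).biUnion fun r =>
      (Finset.range (r + 1)).image fun c => (r, c) := by
    rintro ⟨r, c⟩ hv
    have hv' : (r < h ∧ c < h) ∧ c ≤ r := by
      have : (r, c) ∈ ((Finset.range h) ×ˢ (Finset.range h)).filter fun v => v.2 ≤ v.1 := hv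
      simpa only [Finset.mem_filter, Finset.mem_product, Finset.mem_range] using this
    rw [Finset.mem_biUnion]
    refine ⟨r, Finset.mem_range.mpr hv'.1.1, Finset.mem_image.mpr ⟨c, ?_, rfl⟩⟩
    rw [Finset.mem_range]; omega
  have h2 : (pyramid h hh).nodes.card ≤ ∑ r ∈ Finset.range h, (r + 1) := by
    refine (Finset.card_le_card h1).trans (Finset.card_biUnion_le.trans ?_)
    refine Finset.sum_le_sum fun r _ => ?_
    refine Finset.card_image_le.trans ?_
    rw [Finset.card_range]
  have h3 : 2 * ∑ r ∈ Finset.range h, (r + 1) = h * (h + 1) := by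
    clear h1 h2
    induction h with
    | zero => simp
    | succ n ih =>
      rcases Nat.eq_zero_or_pos n with h0 | h0
      · subst h0; simp
      · rw [Finset.sum_range_succ, mul_add, ih h0]; ring
  omega

/-- The lower bound for pyramids. -/
theorem pyramid_main {k : ℕ} [NeZero k] {S : Type} [Fintype S] (B : Prog (ℕ × ℕ) k S) {h : ℕ}
    (hh : 0 < h) {p q : ℕ} (hk : 2 ≤ k) :
    ((good B (pyramid h hh) p q).card : ℝ) ≤
      (3 * Fintype.card S * (h * (h + 1) * (q + 1) / (2 * k) : ℝ) ^ h + (p + 2) / (k - 1)) *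
        Fintype.card (Inp (pyramid h hh) k) := by
  have hk0 : (0 : ℝ) < k := by exact_mod_cast (by omega : 0 < k)
  refine (main B (p := p) (q := q) hk (pyramid_pebbling h hh)).trans ?_
  refine mul_le_mul_of_nonneg_right (add_le_add_left ?_ _) (Nat.cast_nonneg _)
  refine mul_le_mul_of_nonneg_left (pow_le_pow_left₀ (by positivity) ?_ h) (by positivity)
  have h1 : (2 : ℝ) * (pyramid h hh).nodes.card ≤ h * (h + 1) := by
    exact_mod_cast pyramid_nodes h hh
  rw [div_le_div_iff₀ hk0 (by positivity)]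
  have h2 : (0 : ℝ) ≤ (q + 1) * k := by positivity
  nlinarith

/-- Exponentially many states. -/
theorem pyramid_exp {k : ℕ} [NeZero k] {S : Type} [Fintype S] (B : Prog (ℕ × ℕ) k S) {h : ℕ}
    (hh : 2 ≤ h) {p q : ℕ} (hq : h ^ 4 * (q + 1) ≤ k) (hS : Fintype.card S ≤ h ^ h) :
    ((good B (pyramid h (by omega)) p q).card : ℝ) ≤
      (3 / (h : ℝ) ^ h + (p + 2) / (k - 1)) * Fintype.card (Inp (pyramid h (by omega)) k) := by
  have hh0 : 0 < h := by omega
  have hk : 2 ≤ k := by
    have h1 : 2 ^ 4 ≤ h ^ 4 := Nat.pow_le_pow_left hh 4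
    have h2 : h ^ 4 ≤ h ^ 4 * (q + 1) := Nat.le_mul_of_pos_right _ (by omega)
    omega
  have hk0 : (0 : ℝ) < k := by exact_mod_cast (by omega : 0 < k)
  have hhr : (2 : ℝ) ≤ h := by exact_mod_cast hh
  refine (pyramid_main B hh0 (p := p) (q := q) hk).trans ?_
  refine mul_le_mul_of_nonneg_right (add_le_add_left ?_ _) (Nat.cast_nonneg _)
  have h1 : (h * (h + 1) * (q + 1) / (2 * k) : ℝ) ≤ 1 / (h : ℝ) ^ 2 := by
    have h2 : (h : ℝ) ^ 4 * (q + 1) ≤ k := by exact_mod_cast hq
    rw [div_le_div_iff₀ (by positivity) (by positivity)]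
    have h3 : (h : ℝ) * (h + 1) ≤ 2 * (h : ℝ) ^ 2 := by nlinarith
    calc (h : ℝ) * (h + 1) * (q + 1) * (h : ℝ) ^ 2
        ≤ 2 * (h : ℝ) ^ 2 * (q + 1) * (h : ℝ) ^ 2 := by
          have : (0 : ℝ) ≤ (q + 1) * (h : ℝ) ^ 2 := by positivity
          nlinarith
      _ = 2 * ((h : ℝ) ^ 4 * (q + 1)) := by ring
      _ ≤ 1 * (2 * k) := by linarith
  have h4 : (h * (h + 1) * (q + 1) / (2 * k) : ℝ) ^ h ≤ (1 / (h : ℝ) ^ 2) ^ h :=
    pow_le_pow_left₀ (by positivity) h1 h
  have h5 : (Fintype.card S : ℝ) ≤ (h : ℝ) ^ h := by exact_mod_cast hS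
  calc 3 * (Fintype.card S : ℝ) * (h * (h + 1) * (q + 1) / (2 * k) : ℝ) ^ h
      ≤ 3 * (h : ℝ) ^ h * (1 / (h : ℝ) ^ 2) ^ h := by
        apply mul_le_mul _ h4 (by positivity) (by positivity)
        linarith
    _ = 3 / (h : ℝ) ^ h := by
        rw [one_div, inv_pow, ← pow_mul, two_mul, pow_add]
        field_simp

end Pool.Agent.V8H11.DE
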